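import Pool.Agent.H88.CM.Targets

/-!
# Closing lemma on compact manifolds: row EXT

Global extension of a local diffeomorphism.
-/

set_option autoImplicit false

open Set Function Topology Metric Filter
open scoped Manifold
open Pool.Agent.H88.CL Pool.Agent.H88.CM

namespace Pool.Agent.H75.CLM

section cutoff

variable {d : ℕ} (φ : E d → ℝ) (s : ℝ) (R : E d → E d) (c : E d)

/-- the map cut off outside the ball -/
noncomputable def VV (w : E d) : E d := φ (s⁻¹ • (w - c)) • R w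

/-- the derivative of the map cut off -/
noncomputable def GG (w : E d) : E d →L[ℝ] E d :=
  φ (s⁻¹ • (w - c)) • fderiv ℝ R w + (s⁻¹ • fderiv ℝ φ (s⁻¹ • (w - c))).smulRight (R w)

variable {φ s R c}

theorem hasF_arg (w : E d) : HasFDerivAt (fun w : E d => s⁻¹ • (w - c))
    (s⁻¹ • ContinuousLinearMap.id ℝ (E d)) w :=
  ((hasFDerivAt_id w).sub_const c).const_smul s⁻¹

theorem hasF_phi (hφ : Differentiable ℝ φ) (w : E d) : HasFDerivAt
    (fun w : E d => φ (s⁻¹ • (w - c))) (s⁻¹ • fderiv ℝ φ (s⁻¹ • (w - c))) w := by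
  have h := (hφ (s⁻¹ • (w - c))).hasFDerivAt.comp w (hasF_arg (s := s) (c := c) w)
  have h2 : (fderiv ℝ φ (s⁻¹ • (w - c))).comp (s⁻¹ • ContinuousLinearMap.id ℝ (E d)) =
      s⁻¹ • fderiv ℝ φ (s⁻¹ • (w - c)) := by
    ext v
    simp
  rw [h2] at h
  exact h

theorem hasF_VV (hφ : Differentiable ℝ φ) {w : E d} (hR : DifferentiableAt ℝ R w) :
    HasFDerivAt (VV φ s R c) (GG φ s R c w) w :=
  (hasF_phi hφ w).smul hR.hasFDerivAt

theorem norm_arg (hs : 0 < s) (w : E d) : ‖s⁻¹ • (w - c)‖ = ‖w - c‖ / s := by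
  rw [norm_smul, Real.norm_of_nonneg (inv_nonneg.2 hs.le), div_eq_inv_mul]

/-- the map cut off vanishes near the points outside -/
theorem VV_zero (hs : 0 < s) (h0 : ∀ z : E d, 7 / 10 ≤ ‖z‖ → φ z = 0) {w : E d}
    (hw : 7 / 10 * s < ‖w - c‖) : VV φ s R c =ᶠ[𝓝 w] fun _ => 0 := by
  have h1 : ∀ᶠ y in 𝓝 w, 7 / 10 * s < ‖y - c‖ :=
    (isOpen_lt continuous_const (by fun_prop)).mem_nhds hw
  filter_upwards [h1] with y hy
  unfold VV
  rw [h0, zero_smul]
  rw [norm_arg hs, le_div_iff₀ hs]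
  exact hy.le

theorem cutoff {C L : ℝ} (hs : 0 < s) (hC : 0 ≤ C) (hL : 0 ≤ L) (hφ : ContDiff ℝ 2 φ)
    (h1 : ∀ z : E d, ‖z‖ ≤ 11 / 20 → φ z = 1) (h0 : ∀ z : E d, 7 / 10 ≤ ‖z‖ → φ z = 0)
    (hb : ∀ z, |φ z| ≤ 1) (hd : ∀ z, ‖fderiv ℝ φ z‖ ≤ C)
    (hl : ∀ z z', ‖fderiv ℝ φ z - fderiv ℝ φ z'‖ ≤ C * ‖z - z'‖)
    (hR : ContDiffOn ℝ 2 R (ball c s)) (hR0 : ∀ w ∈ ball c s, ‖R w‖ ≤ L * s ^ 2)
    (hR1 : ∀ w ∈ ball c s, ‖fderiv ℝ R w‖ ≤ L * s)
    (hR2 : ∀ x ∈ ball c s, ∀ y ∈ ball c s, ‖fderiv ℝ R x - fderiv ℝ R y‖ ≤ L * ‖x - y‖)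
    (hR3 : ∀ x ∈ ball c s, ∀ y ∈ ball c s, ‖R x - R y‖ ≤ L * s * ‖x - y‖) :
    ContDiff ℝ 2 (VV φ s R c) ∧ (∀ w, ‖VV φ s R c w‖ ≤ L * s ^ 2) ∧
      (∀ w, ‖fderiv ℝ (VV φ s R c) w‖ ≤ (C + 1) * L * s) ∧
      (∀ x y, ‖fderiv ℝ (VV φ s R c) x - fderiv ℝ (VV φ s R c) y‖ ≤
        (3 * C + 1) * L * ‖x - y‖) ∧ ∀ w ∈ ball c (s / 2), VV φ s R c w = R w := by
  have hφd : Differentiable ℝ φ := hφ.differentiable (by norm_num)
  have hRd : ∀ w ∈ ball c s, DifferentiableAt ℝ R w := fun w hw =>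
    (hR.contDiffAt (isOpen_ball.mem_nhds hw)).differentiableAt (by norm_num)
  have hin : ∀ w ∈ ball c s, fderiv ℝ (VV φ s R c) w = GG φ s R c w := fun w hw =>
    (hasF_VV hφd (hRd w hw)).fderiv
  have hout : ∀ w, 7 / 10 * s < ‖w - c‖ → fderiv ℝ (VV φ s R c) w = 0 := fun w hw => by
    rw [(VV_zero hs h0 hw).fderiv_eq]
    exact fderiv_const_apply _
  have hcase : ∀ w, w ∈ ball c s ∨ 7 / 10 * s < ‖w - c‖ := by
    intro w
    by_cases hw : w ∈ ball c s
    · exact Or.inl hw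
    · refine Or.inr ?_
      rw [mem_ball, dist_eq_norm, not_lt] at hw
      linarith
  have hs' : 0 < s⁻¹ := inv_pos.2 hs
  -- the Lipschitz estimate in the ball
  have hlipin : ∀ x ∈ ball c s, ∀ y ∈ ball c s, ‖GG φ s R c x - GG φ s R c y‖ ≤
      (3 * C + 1) * L * ‖x - y‖ := by
    intro x hx y hy
    set p := s⁻¹ • (x - c) with hp
    set q := s⁻¹ • (y - c) with hq
    have hpq : p - q = s⁻¹ • (x - y) := by
      rw [hp, hq, ← smul_sub, sub_sub_sub_cancel_right]
    have hnpq : ‖p - q‖ = s⁻¹ * ‖x - y‖ := by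
      rw [hpq, norm_smul, Real.norm_of_nonneg hs'.le]
    have hphi : |φ p - φ q| ≤ C * ‖p - q‖ := by
      have := (convex_univ (𝕜 := ℝ) (E := E d)).norm_image_sub_le_of_norm_fderiv_le
        (f := φ) (C := C) (fun z _ => hφd z) (fun z _ => hd z) (mem_univ q) (mem_univ p)
      rwa [Real.norm_eq_abs] at this
    have hdec : GG φ s R c x - GG φ s R c y =
        (φ p - φ q) • fderiv ℝ R x + φ q • (fderiv ℝ R x - fderiv ℝ R y) +
        ((s⁻¹ • (fderiv ℝ φ p - fderiv ℝ φ q)).smulRight (R x) +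
          (s⁻¹ • fderiv ℝ φ q).smulRight (R x - R y)) := by
      ext v i
      simp only [GG, ← hp, ← hq, _root_.sub_apply, _root_.add_apply,
        _root_.smul_apply, ContinuousLinearMap.smulRight_apply, PiLp.sub_apply,
        PiLp.add_apply, PiLp.smul_apply, smul_eq_mul]
      ring
    rw [hdec]
    have e1 : ‖(φ p - φ q) • fderiv ℝ R x‖ ≤ C * L * ‖x - y‖ := by
      rw [norm_smul, Real.norm_eq_abs]
      calc |φ p - φ q| * ‖fderiv ℝ R x‖ ≤ (C * ‖p - q‖) * (L * s) :=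
            mul_le_mul hphi (hR1 x hx) (norm_nonneg _) (by positivity)
        _ = C * L * ‖x - y‖ := by
            rw [hnpq]
            field_simp
    have e2 : ‖φ q • (fderiv ℝ R x - fderiv ℝ R y)‖ ≤ L * ‖x - y‖ := by
      rw [norm_smul, Real.norm_eq_abs]
      calc |φ q| * ‖fderiv ℝ R x - fderiv ℝ R y‖ ≤ 1 * (L * ‖x - y‖) :=
            mul_le_mul (hb q) (hR2 x hx y hy) (norm_nonneg _) zero_le_one
        _ = L * ‖x - y‖ := one_mul _
    have e3 : ‖(s⁻¹ • (fderiv ℝ φ p - fderiv ℝ φ q)).smulRight (R x)‖ ≤ C * L * ‖x - y‖ := by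
      rw [ContinuousLinearMap.norm_smulRight_apply, norm_smul, Real.norm_of_nonneg hs'.le]
      calc s⁻¹ * ‖fderiv ℝ φ p - fderiv ℝ φ q‖ * ‖R x‖ ≤
            s⁻¹ * (C * ‖p - q‖) * (L * s ^ 2) :=
            mul_le_mul (mul_le_mul_of_nonneg_left (hl p q) hs'.le) (hR0 x hx) (norm_nonneg _)
              (by positivity)
        _ = C * L * ‖x - y‖ := by
            rw [hnpq]
            field_simp
    have e4 : ‖(s⁻¹ • fderiv ℝ φ q).smulRight (R x - R y)‖ ≤ C * L * ‖x - y‖ := by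
      rw [ContinuousLinearMap.norm_smulRight_apply, norm_smul, Real.norm_of_nonneg hs'.le]
      calc s⁻¹ * ‖fderiv ℝ φ q‖ * ‖R x - R y‖ ≤ s⁻¹ * C * (L * s * ‖x - y‖) :=
            mul_le_mul (mul_le_mul_of_nonneg_left (hd q) hs'.le) (hR3 x hx y hy) (norm_nonneg _)
              (by positivity)
        _ = C * L * ‖x - y‖ := by
            field_simp
    calc _ ≤ ‖(φ p - φ q) • fderiv ℝ R x + φ q • (fderiv ℝ R x - fderiv ℝ R y)‖ +
          ‖(s⁻¹ • (fderiv ℝ φ p - fderiv ℝ φ q)).smulRight (R x) +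
            (s⁻¹ • fderiv ℝ φ q).smulRight (R x - R y)‖ := norm_add_le _ _
      _ ≤ (‖(φ p - φ q) • fderiv ℝ R x‖ + ‖φ q • (fderiv ℝ R x - fderiv ℝ R y)‖) +
          (‖(s⁻¹ • (fderiv ℝ φ p - fderiv ℝ φ q)).smulRight (R x)‖ +
            ‖(s⁻¹ • fderiv ℝ φ q).smulRight (R x - R y)‖) :=
          add_le_add (norm_add_le _ _) (norm_add_le _ _)
      _ ≤ (C * L * ‖x - y‖ + L * ‖x - y‖) + (C * L * ‖x - y‖ + C * L * ‖x - y‖) :=
          add_le_add (add_le_add e1 e2) (add_le_add e3 e4)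
      _ = (3 * C + 1) * L * ‖x - y‖ := by ring
  -- a point of the ball and a point outside
  have hmix : ∀ x ∈ ball c s, ∀ y, y ∉ ball c s →
      ‖fderiv ℝ (VV φ s R c) x‖ ≤ (3 * C + 1) * L * ‖x - y‖ := by
    intro x hx y hy
    by_cases hx2 : 7 / 10 * s < ‖x - c‖
    · rw [hout x hx2, norm_zero]
      positivity
    · have hcont : ContinuousOn (fun t : ℝ => ‖x + t • (y - x) - c‖) (Icc 0 1) :=
        Continuous.continuousOn (by fun_prop)
      have hmem : 8 / 10 * s ∈ Icc ‖x + (0 : ℝ) • (y - x) - c‖ ‖x + (1 : ℝ) • (y - x) - c‖ := by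
        rw [zero_smul, add_zero, one_smul, add_sub_cancel]
        rw [mem_ball, dist_eq_norm, not_lt] at hy
        exact ⟨by linarith [not_lt.1 hx2], by linarith⟩
      obtain ⟨t, ht, hteq⟩ := intermediate_value_Icc (zero_le_one (α := ℝ)) hcont hmem
      simp only at hteq
      set m := x + t • (y - x) with hm
      have hmb : m ∈ ball c s := by
        rw [mem_ball, dist_eq_norm, hteq]
        linarith
      have h5 := hlipin x hx m hmb
      rw [← hin x hx, ← hin m hmb, hout m (by rw [hteq]; linarith), sub_zero] at h5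
      refine h5.trans (mul_le_mul_of_nonneg_left ?_ (by positivity))
      have h6 : x - m = t • (x - y) := by
        rw [hm, sub_add_cancel_left, ← smul_neg, neg_sub]
      rw [h6, norm_smul, Real.norm_of_nonneg ht.1]
      exact mul_le_of_le_one_left (norm_nonneg _) ht.2
  refine ⟨?_, ?_, ?_, ?_, ?_⟩
  · rw [contDiff_iff_contDiffAt]
    intro w
    rcases hcase w with hw | hw
    · have h2 : ContDiffAt ℝ 2 (fun w : E d => φ (s⁻¹ • (w - c))) w := by
        refine (hφ.contDiffAt (x := s⁻¹ • (w - c))).comp w ?_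
        exact (contDiffAt_id.sub contDiffAt_const).const_smul s⁻¹
      exact h2.smul (hR.contDiffAt (isOpen_ball.mem_nhds hw))
    · exact contDiffAt_const.congr_of_eventuallyEq (VV_zero hs h0 hw)
  · intro w
    rcases hcase w with hw | hw
    · unfold VV
      rw [norm_smul, Real.norm_eq_abs]
      exact (mul_le_of_le_one_left (norm_nonneg _) (hb _)).trans (hR0 w hw)
    · rw [(VV_zero hs h0 hw).self_of_nhds, norm_zero]
      positivity
  · intro w
    rcases hcase w with hw | hw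
    · rw [hin w hw]
      unfold GG
      have e1 : ‖φ (s⁻¹ • (w - c)) • fderiv ℝ R w‖ ≤ L * s := by
        rw [norm_smul, Real.norm_eq_abs]
        exact (mul_le_of_le_one_left (norm_nonneg _) (hb _)).trans (hR1 w hw)
      have e2 : ‖(s⁻¹ • fderiv ℝ φ (s⁻¹ • (w - c))).smulRight (R w)‖ ≤ C * L * s := by
        rw [ContinuousLinearMap.norm_smulRight_apply, norm_smul, Real.norm_of_nonneg hs'.le]
        calc s⁻¹ * ‖fderiv ℝ φ (s⁻¹ • (w - c))‖ * ‖R w‖ ≤ s⁻¹ * C * (L * s ^ 2) :=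
              mul_le_mul (mul_le_mul_of_nonneg_left (hd _) hs'.le) (hR0 w hw) (norm_nonneg _)
                (by positivity)
          _ = C * L * s := by field_simp
      refine (norm_add_le _ _).trans ?_
      linarith
    · rw [hout w hw, norm_zero]
      positivity
  · intro x y
    by_cases hx : x ∈ ball c s
    · by_cases hy : y ∈ ball c s
      · rw [hin x hx, hin y hy]
        exact hlipin x hx y hy
      · have hy' : 7 / 10 * s < ‖y - c‖ := (hcase y).resolve_left hy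
        rw [hout y hy', sub_zero]
        exact hmix x hx y hy
    · have hx' : 7 / 10 * s < ‖x - c‖ := (hcase x).resolve_left hx
      by_cases hy : y ∈ ball c s
      · rw [hout x hx', zero_sub, norm_neg, norm_sub_rev x y]
        exact hmix y hy x hx
      · have hy' : 7 / 10 * s < ‖y - c‖ := (hcase y).resolve_left hy
        rw [hout x hx', hout y hy', sub_zero, norm_zero]
        positivity
  · intro w hw
    rw [mem_ball, dist_eq_norm] at hw
    unfold VV
    rw [h1, one_smul]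
    rw [norm_arg hs, div_le_iff₀ hs]
    linarith

end cutoff

theorem pf_EXT (h1 : Pool.Agent.H88.CL.T_BMP) (h2 : T_INV) : T_EXT := by
  intro d r L hr hL
  obtain ⟨φ, C, hC, hφ, hφ1, hφ0, hφb, hφd, hφl⟩ := h1 d
  have hL0 : 0 < L := by linarith
  have hC0 : 0 ≤ C := by linarith
  set s : ℝ := min r (1 / (2 * (C + 1) * L ^ 2)) with hs
  have hs0 : 0 < s := lt_min hr (by positivity)
  have hsr : s ≤ r := min_le_left _ _
  have hsC : (C + 1) * L ^ 2 * s ≤ 1 / 2 := by
    have h3 : s ≤ 1 / (2 * (C + 1) * L ^ 2) := min_le_right _ _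
    calc (C + 1) * L ^ 2 * s ≤ (C + 1) * L ^ 2 * (1 / (2 * (C + 1) * L ^ 2)) :=
          mul_le_mul_of_nonneg_left h3 (by positivity)
      _ = 1 / 2 := by field_simp
  refine ⟨s / 2, (3 * C + 2) * L + 2, by positivity, by linarith, ?_, ?_⟩
  · have : 0 ≤ (3 * C + 2) * L := by positivity
    linarith
  intro F c A' hF hFb hFl hA' hli hri
  set A := fderiv ℝ F c with hA
  have hcr : c ∈ ball c r := mem_ball_self hr
  have hsub : ball c s ⊆ ball c r := ball_subset_ball hsr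
  have hFd : ∀ w ∈ ball c s, DifferentiableAt ℝ F w := fun w hw =>
    (hF.contDiffAt (isOpen_ball.mem_nhds (hsub hw))).differentiableAt (by norm_num)
  have hAn : ‖A‖ ≤ L := hFb c hcr
  -- the remainder
  set R : E d → E d := fun w => F w - F c - A (w - c) with hRdef
  have hRF : ∀ w ∈ ball c s, HasFDerivAt R (fderiv ℝ F w - A) w := fun w hw =>
    ((hFd w hw).hasFDerivAt.sub_const (F c)).sub
      (A.hasFDerivAt.comp w ((hasFDerivAt_id w).sub_const c))
  have hR1e : ∀ w ∈ ball c s, fderiv ℝ R w = fderiv ℝ F w - A := fun w hw => (hRF w hw).fderiv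
  have hRc : ContDiffOn ℝ 2 R (ball c s) := by
    have h3 : ContDiff ℝ 2 (fun w : E d => A (w - c)) :=
      A.contDiff.comp (contDiff_id.sub contDiff_const)
    exact ((hF.mono hsub).sub contDiffOn_const).sub h3.contDiffOn
  have hR1 : ∀ w ∈ ball c s, ‖fderiv ℝ R w‖ ≤ L * s := by
    intro w hw
    rw [hR1e w hw]
    refine (hFl w (hsub hw) c hcr).trans (mul_le_mul_of_nonneg_left ?_ hL0.le)
    rw [mem_ball, dist_eq_norm] at hw
    exact hw.le
  have hR3 : ∀ x ∈ ball c s, ∀ y ∈ ball c s, ‖R x - R y‖ ≤ L * s * ‖x - y‖ := fun x hx y hy =>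
    (convex_ball c s).norm_image_sub_le_of_norm_fderiv_le (𝕜 := ℝ)
      (fun w hw => (hRF w hw).differentiableAt) hR1 hy hx
  have hcs : c ∈ ball c s := mem_ball_self hs0
  have hRc0 : R c = 0 := by
    simp [hRdef]
  have hR0 : ∀ w ∈ ball c s, ‖R w‖ ≤ L * s ^ 2 := by
    intro w hw
    have h3 := hR3 w hw c hcs
    rw [hRc0, sub_zero] at h3
    rw [mem_ball, dist_eq_norm] at hw
    calc ‖R w‖ ≤ L * s * ‖w - c‖ := h3
      _ ≤ L * s * s := mul_le_mul_of_nonneg_left hw.le (by positivity)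
      _ = L * s ^ 2 := by ring
  have hR2 : ∀ x ∈ ball c s, ∀ y ∈ ball c s, ‖fderiv ℝ R x - fderiv ℝ R y‖ ≤ L * ‖x - y‖ := by
    intro x hx y hy
    rw [hR1e x hx, hR1e y hy, sub_sub_sub_cancel_right]
    exact hFl x (hsub hx) y (hsub hy)
  obtain ⟨v1, v2, v3, v4, v5⟩ := cutoff hs0 hC0 hL0.le hφ hφ1 hφ0 hφb hφd hφl hRc hR0 hR1 hR2 hR3
  set V := VV φ s R c with hV
  have hVd : Differentiable ℝ V := v1.differentiable (by norm_num)
  -- the perturbation
  have hufd : ∀ w, fderiv ℝ (fun v => A' (V v)) w = A'.comp (fderiv ℝ V w) := fun w =>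
    (A'.hasFDerivAt.comp w (hVd w).hasFDerivAt).fderiv
  have hu : Bp d univ (L * (L * s ^ 2)) (L * ((C + 1) * L * s)) (L * ((3 * C + 1) * L))
      (fun v => A' (V v)) := by
    refine ⟨A'.contDiff.comp v1, fun v _ => mem_univ v, fun v => ?_, fun v => ?_, fun v w => ?_⟩
    · exact (A'.le_opNorm _).trans (mul_le_mul hA' (v2 v) (norm_nonneg _) hL0.le)
    · rw [hufd]
      exact (A'.opNorm_comp_le _).trans (mul_le_mul hA' (v3 v) (norm_nonneg _) hL0.le)
    · rw [hufd, hufd, ← ContinuousLinearMap.comp_sub]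
      refine ((A'.opNorm_comp_le _).trans (mul_le_mul hA' (v4 v w) (norm_nonneg _) hL0.le)).trans ?_
      exact le_of_eq (by ring)
  have hβ : L * ((C + 1) * L * s) ≤ 1 / 2 := by
    calc L * ((C + 1) * L * s) = (C + 1) * L ^ 2 * s := by ring
      _ ≤ 1 / 2 := hsC
  obtain ⟨u', hu', hinv1, hinv2⟩ := h2 d univ _ _ _ _ hu hβ
  have hu'd : Differentiable ℝ u' := hu'.c2.differentiable (by norm_num)
  have hΦeq : ∀ w, F c + A ((w + A' (V w)) - c) = F c + A (w - c) + V w := by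
    intro w
    have h3 : (w + A' (V w)) - c = (w - c) + A' (V w) := by abel
    rw [h3, map_add, hri, add_assoc]
  have hΦF : ∀ w, HasFDerivAt (fun w => F c + A ((w + A' (V w)) - c)) (A + fderiv ℝ V w) w := by
    intro w
    have h3 : (fun w => F c + A ((w + A' (V w)) - c)) = fun w => F c + A (w - c) + V w := by
      funext w
      exact hΦeq w
    rw [h3]
    exact ((A.hasFDerivAt.comp w ((hasFDerivAt_id w).sub_const c)).const_add (F c)).add
      (hVd w).hasFDerivAt
  refine ⟨fun w => F c + A ((w + A' (V w)) - c),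
    fun y => (c + A' (y - F c)) + u' (c + A' (y - F c)), ?_, ?_, ?_, ?_, ?_, ?_, ?_, ?_⟩
  · exact contDiff_const.add (A.contDiff.comp ((contDiff_id.add (A'.contDiff.comp v1)).sub
      contDiff_const))
  · have h3 : ContDiff ℝ 2 (fun y : E d => c + A' (y - F c)) :=
      contDiff_const.add (A'.contDiff.comp (contDiff_id.sub contDiff_const))
    exact h3.add (hu'.c2.comp h3)
  · intro x
    have h3 : c + A' (F c + A (x + A' (V x) - c) - F c) = x + A' (V x) := by
      rw [add_sub_cancel_left, hli, add_sub_cancel]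
    simp only [h3]
    exact hinv1 x
  · intro y
    have h3 := hinv2 (c + A' (y - F c))
    simp only at h3 ⊢
    rw [h3, add_sub_cancel_left, hri, add_sub_cancel]
  · intro x
    rw [(hΦF x).fderiv]
    refine (norm_add_le _ _).trans ?_
    have h3 := v3 x
    have h4 : (C + 1) * L * s ≤ 1 / 2 := by
      refine le_trans ?_ hβ
      exact le_mul_of_one_le_left (by positivity) hL
    have h5 : 0 ≤ (3 * C + 1) * L := by positivity
    nlinarith
  · intro y
    have h3 : HasFDerivAt (fun y : E d => c + A' (y - F c)) A' y :=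
      (A'.hasFDerivAt.comp y ((hasFDerivAt_id y).sub_const (F c))).const_add c
    have h4 := (h3.add ((hu'd (c + A' (y - F c))).hasFDerivAt.comp y h3)).fderiv
    have h5 : fderiv ℝ (fun y => (c + A' (y - F c)) + u' (c + A' (y - F c))) y =
        A' + (fderiv ℝ u' (c + A' (y - F c))).comp A' := h4
    rw [h5]
    refine (norm_add_le _ _).trans ?_
    have h6 : ‖(fderiv ℝ u' (c + A' (y - F c))).comp A'‖ ≤ 1 * L := by
      refine (ContinuousLinearMap.opNorm_comp_le _ _).trans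
        (mul_le_mul ?_ hA' (norm_nonneg _) zero_le_one)
      refine (hu'.b _).trans ?_
      linarith
    have h7 : 0 ≤ 3 * C * L := by positivity
    nlinarith
  · intro x y
    rw [(hΦF x).fderiv, (hΦF y).fderiv, add_sub_add_left_eq_sub]
    refine (v4 x y).trans (mul_le_mul_of_nonneg_right ?_ (norm_nonneg _))
    nlinarith
  · intro x hx
    refine (hΦeq x).trans ?_
    rw [v5 x hx]
    simp only [hRdef]
    abel

end Pool.Agent.H75.CLM
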