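import Pool.Agent.H88.CM.Targets

/-!
# Closing lemma on compact manifolds: row MAXM

A maximal scale.
-/

set_option autoImplicit false

open Set Function Topology Metric Filter
open scoped Manifold
open Pool.Agent.H88.CL Pool.Agent.H88.CM

namespace Pool.Agent.H75.CLM

theorem pf_MAXM : T_MAXM := by
  intro M d Y y S n x D ρ N0 R hY hD hρ h0
  by_cases hA : ∃ i j, i < j ∧ j ≤ n ∧ i ∈ S ∧ ‖y i - x‖ ≤ R ∧ Y i = Y j
  · exact Or.inl hA
  · right
    -- a common separation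
    have hsep : ∃ e : ℝ, 0 < e ∧ ∀ i j, i < j → j ≤ n → i ∈ S → j ∈ S → ‖y i - x‖ ≤ R →
        e ≤ ‖y j - y i‖ := by
      have h1 : ∀ p : ℕ × ℕ, ∃ e : ℝ, 0 < e ∧ (p.1 < p.2 → p.2 ≤ n → p.1 ∈ S → p.2 ∈ S →
          ‖y p.1 - x‖ ≤ R → e ≤ ‖y p.2 - y p.1‖) := by
        rintro ⟨i, j⟩
        by_cases h : i < j ∧ j ≤ n ∧ i ∈ S ∧ j ∈ S ∧ ‖y i - x‖ ≤ R
        · refine ⟨‖y j - y i‖, ?_, fun _ _ _ _ _ => le_refl _⟩
          rw [norm_pos_iff, sub_ne_zero]
          intro hij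
          exact hA ⟨i, j, h.1, h.2.1, h.2.2.1, h.2.2.2.2, hY i h.2.2.1 j h.2.2.2.1 hij.symm⟩
        · exact ⟨1, one_pos, fun a b c d' e' => absurd ⟨a, b, c, d', e'⟩ h⟩
      choose e he1 he2 using h1
      have hne : (Finset.range (n + 1) ×ˢ Finset.range (n + 1)).Nonempty :=
        ⟨(0, 0), by simp⟩
      obtain ⟨p, hp, hmin⟩ := Finset.exists_min_image _ e hne
      refine ⟨e p, he1 p, ?_⟩
      intro i j hij hjn hi hj hR
      have hm : (i, j) ∈ Finset.range (n + 1) ×ˢ Finset.range (n + 1) := by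
        rw [Finset.mem_product, Finset.mem_range, Finset.mem_range]
        exact ⟨by omega, by omega⟩
      exact (hmin _ hm).trans (he2 (i, j) hij hjn hi hj hR)
    obtain ⟨e, he, hsep⟩ := hsep
    obtain ⟨N1, hN1⟩ := hD e he
    classical
    let p : ℕ → Prop := fun N => N0 ≤ N ∧ ∃ i j, i < j ∧ j ≤ n ∧ i ∈ S ∧ j ∈ S ∧
      ‖y i - x‖ ≤ ρ N ∧ ‖y j - y i‖ ≤ D N
    have hbd : ∀ N, p N → N ≤ max N0 N1 := by
      rintro N ⟨hN, i, j, hij, hjn, hi, hj, h1, h2⟩
      by_contra h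
      have h3 : N1 ≤ N := by
        have := not_le.1 h
        have := le_max_right N0 N1
        omega
      have h4 := hsep i j hij hjn hi hj (h1.trans (hρ N))
      have h5 := hN1 N h3
      linarith
    have hp0 : p N0 := ⟨le_refl _, h0⟩
    have hs := Nat.findGreatest_spec (P := p) (le_max_left N0 N1) hp0
    refine ⟨Nat.findGreatest p (max N0 N1), hs.1, hs.2, ?_⟩
    intro i j hij hjn hi hj h1
    by_contra h2
    have h3 : p (Nat.findGreatest p (max N0 N1) + 1) :=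
      ⟨by have := hs.1; omega, i, j, hij, hjn, hi, hj, h1, not_lt.1 h2⟩
    have h4 := hbd _ h3
    have h5 := Nat.le_findGreatest h4 h3
    omega

end Pool.Agent.H75.CLM
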